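import Mathlib
import Pool.Agent.Y99.PB.Base

/-!
# Minimal primes of modules of finite projective dimension: counterexamples over every discrete
valuation ring

The starting theorem `CohenMacaulayCounterexample` gives one ring, an algebra over `ℚ`. Here every
discrete valuation ring `O` (for example `k⟦t⟧` for any field `k`, or the `p`-adic integers, or a
localisation of the integers at a prime) embeds by a local homomorphism with trivial residue field
extension in such a ring; so there are counterexamples with every residue field, in every equal
characteristic and in every mixed characteristic. The ring is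
`R = T[x, w]/(x² - αx - βw, xw - γx, w² - γw)` with `T = O⟦β⟧⟦α⟧` and `γ` a uniformizer of `O`.
-/

set_option autoImplicit false

open IsLocalRing

/-- For every discrete valuation ring `O` there are a Noetherian local ring `R` with an injective
local homomorphism `i : O → R` inducing a surjection (so an isomorphism) of the residue fields, which
is reduced, Cohen–Macaulay of dimension three (it has a regular sequence of length `3 = dim R`) and
equidimensional (every minimal prime has coheight three), a nonzero finitely generated `R`-module `N`
of projective dimension at most three, and a minimal prime `p` of `R` that is contained in no minimal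
prime of `N`. -/
theorem Pool.Agent.Results.MP_07e2b8_al.EveryCharacteristic.result (O : Type) [CommRing O]
    [IsDomain O] [IsDiscreteValuationRing O] :
    ∃ (R : Type) (_ : CommRing R) (_ : IsNoetherianRing R) (_ : IsLocalRing R) (i : O →+* R)
      (N : Type) (_ : AddCommGroup N) (_ : Module R N),
      Function.Injective i ∧ (∀ a, IsUnit (i a) → IsUnit a) ∧
      (∀ r : R, ∃ a : O, r - i a ∈ maximalIdeal R) ∧
      IsReduced R ∧ ringKrullDim R = 3 ∧
      (∃ rs : List R, rs.length = 3 ∧ RingTheory.Sequence.IsRegular R rs) ∧
      (∀ p ∈ minimalPrimes R, ringKrullDim (R ⧸ p) = 3) ∧
      Module.Finite R N ∧ Nontrivial N ∧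
      CategoryTheory.HasProjectiveDimensionLE (ModuleCat.of R N) 3 ∧
      ∃ p ∈ minimalPrimes R, ∀ q ∈ (Module.annihilator R N).minimalPrimes, ¬ (p ≤ q) :=
  Pool.Agent.Y99.PB.counterexample O
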